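import Pool.Agent.W355.FR.Stm

/-! Project FR of helper355: two coprime forms have only finitely many common prime divisors. -/

set_option autoImplicit false

namespace Pool.Agent.W631.FR

open Polynomial Pool.Agent.W355.FR

lemma hv_add (D : ℕ) (f g : ℤ[X]) (a b : ℤ) : hv D (f + g) a b = hv D f a b + hv D g a b := by
  unfold hv
  rw [← Finset.sum_add_distrib]
  exact Finset.sum_congr rfl fun i _ => by rw [coeff_add]; ring

lemma hv_C (D : ℕ) (R a b : ℤ) : hv D (C R) a b = R * b ^ D := by
  unfold hv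
  rw [Finset.sum_range_succ', Finset.sum_eq_zero (fun i _ => by rw [coeff_C_succ]; ring),
    coeff_C_zero]
  simp

/-- Bezout with cleared denominators -/
lemma bezout (P Q : ℤ[X])
    (h : IsCoprime (P.map (Int.castRingHom ℚ)) (Q.map (Int.castRingHom ℚ))) :
    ∃ (U V : ℤ[X]) (R : ℤ), R ≠ 0 ∧ U * P + V * Q = C R := by
  obtain ⟨u, v, huv⟩ := h
  obtain ⟨b1, hb1, h1⟩ := IsLocalization.integerNormalization_spec (nonZeroDivisors ℤ) u
  obtain ⟨b2, hb2, h2⟩ := IsLocalization.integerNormalization_spec (nonZeroDivisors ℤ) v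
  set u1 := IsLocalization.integerNormalization (nonZeroDivisors ℤ) u
  set v1 := IsLocalization.integerNormalization (nonZeroDivisors ℤ) v
  have hC : ∀ z : ℤ, (C z).map (Int.castRingHom ℚ) = C (z : ℚ) := fun z => by
    rw [Polynomial.map_C]; rfl
  refine ⟨C (b2 : ℤ) * u1, C (b1 : ℤ) * v1, (b1 : ℤ) * b2,
    mul_ne_zero (nonZeroDivisors.ne_zero hb1) (nonZeroDivisors.ne_zero hb2), ?_⟩
  apply Polynomial.map_injective (Int.castRingHom ℚ) (RingHom.injective_int _)
  have h1' : u1.map (Int.castRingHom ℚ) = C ((b1 : ℤ) : ℚ) * u := by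
    have := h1
    rw [show algebraMap ℤ ℚ = Int.castRingHom ℚ from rfl] at this
    rw [this]
    ext i
    simp
  have h2' : v1.map (Int.castRingHom ℚ) = C ((b2 : ℤ) : ℚ) * v := by
    have := h2
    rw [show algebraMap ℤ ℚ = Int.castRingHom ℚ from rfl] at this
    rw [this]
    ext i
    simp
  rw [Polynomial.map_add, Polynomial.map_mul, Polynomial.map_mul, Polynomial.map_mul,
    Polynomial.map_mul, hC, hC, hC, h1', h2', Int.cast_mul, C_mul]
  linear_combination (C ((b1 : ℤ) : ℚ) * C ((b2 : ℤ) : ℚ)) * huv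

lemma not_dvd_of_lt {p : ℕ} {R : ℤ} (hR : R ≠ 0) (h : R.natAbs < p) : ¬ (p : ℤ) ∣ R := by
  intro hd
  have h1 : p ∣ R.natAbs := Int.natCast_dvd.1 hd
  exact absurd (Nat.le_of_dvd (Int.natAbs_pos.2 hR) h1) (not_le.2 h)

theorem pRES : P_RES := by
  intro hvm D P Q hP hQ hcop
  obtain ⟨U, V, R, hR, hUV⟩ := bezout P Q hcop
  refine ⟨max R.natAbs P.leadingCoeff.natAbs, fun p hp hz a b hab hd1 hd2 => ?_⟩
  have hp' : Prime (p : ℤ) := Nat.prime_iff_prime_int.1 hp
  have hP0 : P ≠ 0 := by
    intro h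
    rw [h] at hP
    simp at hP
  have e1 := hvm (U.natDegree + V.natDegree + D) P.natDegree U P (by omega) le_rfl a b
  have e2 := hvm (U.natDegree + V.natDegree + P.natDegree) D V Q (by omega) hQ a b
  have e3 : U.natDegree + V.natDegree + D + P.natDegree =
      U.natDegree + V.natDegree + P.natDegree + D := by omega
  rw [e3] at e1
  have key : R * b ^ (U.natDegree + V.natDegree + P.natDegree + D) =
      hv (U.natDegree + V.natDegree + D) U a b * hv P.natDegree P a b +
        hv (U.natDegree + V.natDegree + P.natDegree) V a b * hv D Q a b := by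
    rw [← e1, ← e2, ← hv_add, hUV, hv_C]
  have hdb : (p : ℤ) ∣ b := by
    have h1 : (p : ℤ) ∣ R * b ^ (U.natDegree + V.natDegree + P.natDegree + D) := by
      rw [key]
      exact dvd_add (hd1.mul_left _) (hd2.mul_left _)
    rcases hp'.dvd_or_dvd h1 with h2 | h2
    · exact absurd h2 (not_dvd_of_lt hR (lt_of_le_of_lt (le_max_left _ _) hz))
    · exact hp'.dvd_of_dvd_pow h2
  have hda : (p : ℤ) ∣ a := by
    have h1 : hv P.natDegree P a b = (∑ i ∈ Finset.range P.natDegree,
        P.coeff i * a ^ i * b ^ (P.natDegree - i)) + P.leadingCoeff * a ^ P.natDegree := by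
      unfold hv
      rw [Finset.sum_range_succ, Nat.sub_self, pow_zero, mul_one, coeff_natDegree]
    have h2 : (p : ℤ) ∣ ∑ i ∈ Finset.range P.natDegree,
        P.coeff i * a ^ i * b ^ (P.natDegree - i) := by
      refine Finset.dvd_sum fun i hi => ?_
      have h3 : P.natDegree - i ≠ 0 := by
        have := Finset.mem_range.1 hi
        omega
      exact (dvd_pow hdb h3).mul_left _
    have h4 : (p : ℤ) ∣ P.leadingCoeff * a ^ P.natDegree := by
      rw [h1] at hd1
      exact (dvd_add_right h2).1 hd1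
    rcases hp'.dvd_or_dvd h4 with h5 | h5
    · exact absurd h5 (not_dvd_of_lt (Polynomial.leadingCoeff_ne_zero.2 hP0)
        (lt_of_le_of_lt (le_max_right _ _) hz))
    · exact hp'.dvd_of_dvd_pow h5
  have h6 : (p : ℤ) ∣ (Int.gcd a b : ℤ) := Int.dvd_coe_gcd hda hdb
  rw [hab] at h6
  exact hp'.not_isUnit (isUnit_of_dvd_one (by simpa using h6))

end Pool.Agent.W631.FR
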